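import Pool.Agent.TH464.PO.GapFam

set_option autoImplicit false

/-!
# Almost prime Goldbach representations: the joint law of consecutive gaps, uniformly in `N`

For even `N` let `m` be good if `m` and `N - m` both have fewer than `r` prime factors, all larger than
`N ^ (1 / r)`, and let `V` be the sieve density of this condition. Given `θ > 0`, a number `s` of gaps
and an accuracy `ε`, for all `r ≥ r0` and EVERY large even `N`, in ALL intervals `(Z, Z + Y]` with
`Y ≥ N ^ θ` and `Z + 2 Y ≤ N` and for ALL `t_0, ..., t_(s-1)`: the proportion of the good integers `m`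
in `(Z, Z + Y]` whose next `s` gaps are larger than `t_0`, ..., `t_(s-1)` is the product of the
`e ^ (-t_j V)` up to `ε`. So `s` consecutive gaps are asymptotically independent, and each is
exponential in the scale `1 / V`.
-/

namespace Pool.Agent.Results.MP_e94e4b_nt.ConsecutiveGaps

open Finset Filter

/-- `m < N`, and `m` and `N - m` have fewer than `r` prime factors (with multiplicity), all of them larger
than `N ^ (1 / r)`. -/
def GoodPair (r N m : ℕ) : Prop :=
  m < N ∧ (m.primeFactorsList.length < r ∧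
    ∀ p : ℕ, p.Prime → p ∣ m → (N : ℝ) ^ (1 / (r : ℝ)) < (p : ℝ)) ∧
  ((N - m).primeFactorsList.length < r ∧
    ∀ p : ℕ, p.Prime → p ∣ N - m → (N : ℝ) ^ (1 / (r : ℝ)) < (p : ℝ))

open Classical in
/-- The sieve density: the product over the primes `p ≤ N ^ (1 / r)` of `1 - 1 / p` if `p` divides `N`, and
of `1 - 2 / p` if not. -/
noncomputable def V (r N : ℕ) : ℝ :=
  ∏ p ∈ (Finset.range (⌊(N : ℝ) ^ (1 / (r : ℝ))⌋₊ + 1)).filter Nat.Prime,
    (1 - (if p ∣ N then 1 else 2) / (p : ℝ))

/-- The next good integer after `n`. -/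
noncomputable def next (r N n : ℕ) : ℕ :=
  sInf {m | n < m ∧ GoodPair r N m}

/-- The `j`-th gap after `n`: the distance between the `j`-th and the `(j + 1)`-st good integer after `n`,
where the `0`-th is `n` itself. -/
noncomputable def gap (r N n j : ℕ) : ℕ :=
  (next r N)^[j + 1] n - (next r N)^[j] n

open Pool.Agent.TH464.PO

open Classical in
/-- **The joint law of `s` consecutive gaps**, uniformly in `N`. -/
theorem result (θ : ℝ) (hθ : 0 < θ) (s : ℕ) (ε : ℝ) (hε : 0 < ε) :
    ∃ r0 : ℕ, ∀ r : ℕ, r0 ≤ r → ∀ᶠ N : ℕ in atTop, 2 ∣ N → ∀ Z Y : ℕ, (N : ℝ) ^ θ ≤ Y →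
      Z + 2 * Y ≤ N → ∀ t : Fin s → ℕ,
        |(((Finset.Ioc Z (Z + Y)).filter
            (fun m => GoodPair r N m ∧ ∀ j : Fin s, t j < gap r N m j)).card : ℝ) -
          Y * V r N * ∏ j, Real.exp (-(t j * V r N))| ≤ ε * (Y * V r N) := by
  obtain ⟨r0, h⟩ := gold_igap θ hθ s ε hε
  refine ⟨r0, fun r hr => ?_⟩
  filter_upwards [h r hr] with N hN h2
  exact hN h2 (GoodPair r N) (V r N) (fun m _ => Iff.rfl) (gold_V N _)

end Pool.Agent.Results.MP_e94e4b_nt.ConsecutiveGaps
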