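import Pool.Agent.TH872.GQ.Win

/-!
# Pairs of primes with the sum `2 N ^ 2 + 2 N + 2` close to `N ^ 2`, for integers `N` with restricted digits

Definitions used:
* in `Pool.Agent.H560R3.GB`: `C₂`: the twin prime constant `∏_{p > 2} (1 - 1 / (p - 1) ^ 2)`; `sing m`: the
  singular series `2 C₂ ∏_{p ∣ m, p > 2} (p - 1) / (p - 2)`;
* in `Pool.Agent.TH872.GQ`: `S b D k`: the integers below `b ^ k` whose `i`-th digit in base `b` lies in `D i`, for all
  `i < k`.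
-/

set_option autoImplicit false

namespace Pool.Agent.Results.MP_e94e4b_nt.DigitRestrictedBases

open Finset Pool.Agent.H560R3.GB Pool.Agent.TH872.GQ

/-- The number of the integers `j` with `u < j ≤ v` for which `N ^ 2 + j + 1` and `(N + 1) ^ 2 - j` are both primes. -/
def pairs (N u v : ℕ) : ℕ := ((Ioc u v).filter (fun j => (N ^ 2 + j + 1).Prime ∧ ((N + 1) ^ 2 - j).Prime)).card

/-- The predicted number of these `j`. -/
noncomputable def pred (N u v : ℕ) : ℝ :=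
  sing (2 * N ^ 2 + 2 * N + 2) * ((v : ℝ) - u) / Real.log (2 * N ^ 2 + 2 * N + 2 : ℕ) ^ 2

/-- (1) There is an integer `j` with `2 ≤ j ≤ N ^ 2 / log ^ A N` such that `N ^ 2 + j + 1` and `(N + 1) ^ 2 - j` are both
primes; (2) in every window `(u, v]` of a length of at least `N ^ 2 / log ^ A N` with `0 ≤ u < v ≤ (N + 1) ^ 2` the number
of such `j` is as predicted, up to a relative error of at most `ε`. -/
def Holds (ε : ℝ) (A N : ℕ) : Prop :=
  (∃ j : ℕ, 2 ≤ j ∧ (j : ℝ) ≤ (N : ℝ) ^ 2 / Real.log N ^ A ∧ (N ^ 2 + j + 1).Prime ∧ ((N + 1) ^ 2 - j).Prime) ∧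
  ∀ u v : ℕ, u < v → v ≤ (N + 1) ^ 2 → (N : ℝ) ^ 2 / Real.log N ^ A ≤ (v : ℝ) - u →
    |(pairs N u v : ℝ) - pred N u v| ≤ ε * pred N u v

lemma pairs_eq (N u v : ℕ) (hv : v ≤ (N + 1) ^ 2) :
    pairs N u v = Pool.Agent.W93.PG.cnt (2 * N ^ 2 + 2 * N + 2) (N ^ 2 + 1 + u) (N ^ 2 + 1 + v) := by
  unfold pairs Pool.Agent.W93.PG.cnt
  apply card_bij (fun j _ => N ^ 2 + j + 1)
  · intro j hj
    rw [mem_filter, mem_Ioc] at hj ⊢
    obtain ⟨⟨h1, h2⟩, h3, h4⟩ := hj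
    refine ⟨⟨by omega, by omega⟩, h3, ?_⟩
    have e : 2 * N ^ 2 + 2 * N + 2 - (N ^ 2 + j + 1) = (N + 1) ^ 2 - j := by
      have : (N + 1) ^ 2 = N ^ 2 + 2 * N + 1 := by ring
      omega
    rw [e]
    exact h4
  · intro j _ j' _ h
    omega
  · intro p hp
    rw [mem_filter, mem_Ioc] at hp
    obtain ⟨⟨h1, h2⟩, h3, h4⟩ := hp
    have e0 : p = N ^ 2 + (p - N ^ 2 - 1) + 1 := by omega
    refine ⟨p - N ^ 2 - 1, ?_, by omega⟩
    rw [mem_filter, mem_Ioc]
    refine ⟨⟨by omega, by omega⟩, by rw [← e0]; exact h3, ?_⟩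
    have e : (N + 1) ^ 2 - (p - N ^ 2 - 1) = 2 * N ^ 2 + 2 * N + 2 - p := by
      have : (N + 1) ^ 2 = N ^ 2 + 2 * N + 1 := by ring
      omega
    rw [e]
    exact h4

lemma ev_holds (ε : ℝ) (hε : 0 < ε) (A : ℕ) : ∃ N₀ : ℕ, ∀ N : ℕ, N₀ ≤ N →
    Pool.Agent.W93.PG.WinP (min ε (1 / 2)) (A + 1) (2 * N ^ 2 + 2 * N + 2) → Holds ε A N := by
  obtain ⟨n1, h1⟩ := Pool.Agent.H373R2.T7.ev_L' 12
  obtain ⟨n2, h2⟩ := Pool.Agent.H373R2.T7.ev_log' A 4
  refine ⟨n1 + n2 + 4, fun N hN hwin => ?_⟩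
  have a1 := h1 N (by omega)
  have a2 := h2 N (by omega)
  obtain ⟨m, hm⟩ : ∃ m, m = 2 * N ^ 2 + 2 * N + 2 := ⟨_, rfl⟩
  have hN4 : (4 : ℝ) ≤ N := by exact_mod_cast (by omega : 4 ≤ N)
  have hN0 : (0 : ℝ) < N := by linarith
  have hmr : (m : ℝ) = 2 * (N : ℝ) ^ 2 + 2 * N + 2 := by rw [hm]; push_cast; ring
  have hmN : (N : ℝ) ≤ m := by rw [hmr]; nlinarith
  have hm6 : (m : ℝ) ≤ 6 * (N : ℝ) ^ 2 := by rw [hmr]; nlinarith
  have hm0 : (0 : ℝ) < m := by linarith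
  have hlogm : Real.log N ≤ Real.log m := Real.log_le_log hN0 hmN
  obtain ⟨L, hL⟩ : ∃ L, L = Real.log (N : ℝ) := ⟨_, rfl⟩
  obtain ⟨M, hM⟩ : ∃ M, M = Real.log (m : ℝ) := ⟨_, rfl⟩
  have hs := Pool.Agent.W93.GB.one_le_sing m
  unfold Pool.Agent.W93.PG.WinP at hwin
  have hLM : L ≤ M := by rw [hL, hM]; exact hlogm
  rw [← hL] at a1 a2
  have hL0 : 0 < L := by linarith
  have hM0 : 0 < M := by linarith
  have hLA : 0 < L ^ A := by positivity
  have hwid : (m : ℝ) / M ^ (A + 1) ≤ (1 / 2) * ((N : ℝ) ^ 2 / L ^ A) := by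
    have e1 : (12 : ℝ) * L ^ A ≤ M ^ (A + 1) := by
      calc (12 : ℝ) * L ^ A ≤ M * M ^ A := mul_le_mul (by linarith) (pow_le_pow_left₀ hL0.le hLM A) hLA.le hM0.le
        _ = M ^ (A + 1) := by ring
    calc (m : ℝ) / M ^ (A + 1) ≤ 6 * (N : ℝ) ^ 2 / (12 * L ^ A) :=
          div_le_div₀ (by positivity) hm6 (by positivity) e1
      _ = (1 / 2) * ((N : ℝ) ^ 2 / L ^ A) := by
          field_simp
          ring
  -- the windows
  have hall : ∀ u v : ℕ, u < v → v ≤ (N + 1) ^ 2 → (m : ℝ) / M ^ (A + 1) ≤ (v : ℝ) - u →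
      |(pairs N u v : ℝ) - pred N u v| ≤ min ε (1 / 2) * pred N u v := by
    intro u v huv hv hlen
    have h3 := hwin (N ^ 2 + 1 + u) (N ^ 2 + 1 + v) (by omega) (by
      have : (N + 1) ^ 2 = N ^ 2 + 2 * N + 1 := by ring
      omega) (by
      rw [← hm, ← hM]
      push_cast
      linarith)
    rw [← pairs_eq N u v hv] at h3
    have e : ((N ^ 2 + 1 + v : ℕ) : ℝ) - ((N ^ 2 + 1 + u : ℕ) : ℝ) = (v : ℝ) - u := by push_cast; ring
    rw [e] at h3
    unfold pred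
    exact h3
  have hpred : ∀ u v : ℕ, u < v → 0 < pred N u v := by
    intro u v huv
    have h5 : (0 : ℝ) < (v : ℝ) - u := by
      have : (u : ℝ) < v := by exact_mod_cast huv
      linarith
    unfold pred
    rw [← hm, ← hM]
    positivity
  have hsq : Real.sqrt N * Real.sqrt N = N := Real.mul_self_sqrt hN0.le
  have hs0 : 0 < Real.sqrt N := Real.sqrt_pos.2 hN0
  have hsN : Real.sqrt N ≤ N := by
    rw [Real.sqrt_le_left hN0.le]
    nlinarith
  have hbig : 4 ≤ (N : ℝ) ^ 2 / L ^ A := by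
    rw [le_div_iff₀ hLA]
    nlinarith
  refine ⟨?_, fun u v huv hv hlen => ?_⟩
  · obtain ⟨v, hv⟩ : ∃ v : ℕ, v = ⌊(N : ℝ) ^ 2 / L ^ A⌋₊ := ⟨_, rfl⟩
    have hv1 : (v : ℝ) ≤ (N : ℝ) ^ 2 / L ^ A := by rw [hv]; exact Nat.floor_le (by positivity)
    have hv2 : (N : ℝ) ^ 2 / L ^ A < v + 1 := by rw [hv]; exact Nat.lt_floor_add_one _
    have hLA1 : 1 ≤ L ^ A := one_le_pow₀ (by linarith)
    have hvN : v ≤ (N + 1) ^ 2 := by
      have : (v : ℝ) ≤ ((N + 1) ^ 2 : ℕ) := by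
        refine hv1.trans ?_
        rw [div_le_iff₀ hLA]
        push_cast
        nlinarith
      exact_mod_cast this
    have hv3 : 1 < v := by
      have : (1 : ℝ) < v := by linarith
      exact_mod_cast this
    have h5 := hall 1 v hv3 hvN (by
      refine hwid.trans ?_
      push_cast
      linarith)
    have h6 := hpred 1 v hv3
    have h7 : |(pairs N 1 v : ℝ) - pred N 1 v| ≤ 1 / 2 * pred N 1 v :=
      h5.trans (mul_le_mul_of_nonneg_right (min_le_right _ _) h6.le)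
    have h8 : (0 : ℝ) < pairs N 1 v := by
      rw [abs_le] at h7
      linarith [h7.1]
    have h9 : 0 < pairs N 1 v := by exact_mod_cast h8
    unfold pairs at h9
    rw [card_pos] at h9
    obtain ⟨j, hj⟩ := h9
    rw [mem_filter, mem_Ioc] at hj
    obtain ⟨⟨h10, h11⟩, h12, h13⟩ := hj
    refine ⟨j, h10, ?_, h12, h13⟩
    rw [← hL]
    have : (j : ℝ) ≤ v := by exact_mod_cast h11
    linarith
  · rw [← hL] at hlen
    have h5 := hall u v huv hv (by
      refine hwid.trans (le_trans ?_ hlen)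
      have : 0 ≤ (N : ℝ) ^ 2 / L ^ A := by positivity
      linarith)
    exact h5.trans (mul_le_mul_of_nonneg_right (min_le_left _ _) (hpred u v huv).le)

open Classical in
/-- Let `b ≥ 2`, `A`, `U` and `ε > 0` be fixed, and let `k` be large. Let `D 0, …, D (k - 1)` be arbitrary sets of at
least two digits in base `b`, and let `S` be the set of the integers below `b ^ k` whose `i`-th digit lies in `D i` for
all `i < k`. Then all `N ∈ S`, except for at most `#S / k ^ U` of them, have the following property: there is an integer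
`j` with `2 ≤ j ≤ N ^ 2 / log ^ A N` such that `N ^ 2 + j + 1` and `(N + 1) ^ 2 - j` are both primes, and in all windows
of length at least `N ^ 2 / log ^ A N` in `(0, (N + 1) ^ 2]` the number of these `j` is as predicted, up to a relative
error of at most `ε`. -/
theorem result (b A U : ℕ) (hb : 2 ≤ b) (ε : ℝ) (hε : 0 < ε) :
    ∃ k₀ : ℕ, ∀ k : ℕ, k₀ ≤ k → ∀ D : ℕ → Finset ℕ, (∀ i < k, D i ⊆ range b ∧ 2 ≤ (D i).card) →
      (((S b D k).filter (fun N => ¬ Holds ε A N)).card : ℝ) ≤ (S b D k).card / (k : ℝ) ^ U := by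
  obtain ⟨N₀, h0⟩ := ev_holds ε hε A
  obtain ⟨k₀, h⟩ := win_quad b 2 (A + 1) U (2 * N₀ ^ 2 + 2 * N₀ + 2) hb 2 2 (by norm_num) (min ε (1 / 2))
    (lt_min hε (by norm_num)) (fun m => ∀ N : ℕ, m = 2 * N ^ 2 + 2 * N + 2 → Holds ε A N) (by
    intro m hm _ hwin N hN
    apply h0 N _ (by rw [← hN]; exact hwin)
    by_contra hlt
    push Not at hlt
    have : N ^ 2 ≤ N₀ ^ 2 := Nat.pow_le_pow_left hlt.le 2
    omega)
  refine ⟨k₀, fun k hk D hD => h k hk D hD 2 ?_ _ ?_⟩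
  · have : (1 : ℤ) ≤ (b : ℤ) ^ (2 * k) := by
      have h1 : 1 ≤ b ^ (2 * k) := Nat.one_le_pow _ _ (by omega)
      exact_mod_cast h1
    rw [abs_of_nonneg (by norm_num)]
    push_cast
    linarith
  · intro N hN
    have e : value 2 2 2 N = ((2 * N ^ 2 + 2 * N + 2 : ℕ) : ℤ) := by
      unfold value
      push_cast
      ring
    refine ⟨?_, ?_, fun hg => hN (hg N ?_)⟩
    · rw [e]
      exact_mod_cast (by omega : 0 < 2 * N ^ 2 + 2 * N + 2)
    · rw [e]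
      exact ⟨((N ^ 2 + N + 1 : ℕ) : ℤ), by push_cast; ring⟩
    · rw [e]
      rfl

end Pool.Agent.Results.MP_e94e4b_nt.DigitRestrictedBases
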