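import Pool.Agent.TH464.PO.GoldPack

set_option autoImplicit false

/-!
# Almost prime pairs with sum `N` in short intervals: the density in all windows around the pairs

For even `N` let `m` be good if `m` and `N - m` both have fewer than `r` prime factors, all larger than
`N ^ (1 / r)`, and let `V` be the sieve density of this condition. Given `θ > 0` and `ε > 0` there are
`K` and `r0` such that for every `r ≥ r0` and EVERY large even `N`, in ALL intervals `(Z, Z + Y]` with
`Z, Y ≥ N ^ θ`, `Z + Y ≤ N`, for all but at most `ε Y V` of the good `n` of the interval ALL windows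
`(u, v]` around `n` inside it of length at least `K / V` contain `(1 ± ε) (v - u) V` good `m`. For
`N = 2 k ^ 2 + 2 k + 2` and `Z = k ^ 2`, `Y = 2 k` the pairs `m`, `N - m` are pairs between the
consecutive squares `k ^ 2` and `(k + 1) ^ 2` with the sum of the problem.
-/

namespace Pool.Agent.Results.MP_e94e4b_nt.ExactNeighbours

open Finset Filter

/-- `m < N`, and `m` and `N - m` have fewer than `r` prime factors (with multiplicity), all of them larger
than `N ^ (1 / r)`. -/
def GoodPair (r N m : ℕ) : Prop :=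
  m < N ∧ (m.primeFactorsList.length < r ∧
    ∀ p : ℕ, p.Prime → p ∣ m → (N : ℝ) ^ (1 / (r : ℝ)) < (p : ℝ)) ∧
  ((N - m).primeFactorsList.length < r ∧
    ∀ p : ℕ, p.Prime → p ∣ N - m → (N : ℝ) ^ (1 / (r : ℝ)) < (p : ℝ))

open Classical in
/-- The sieve density: the product over the primes `p ≤ N ^ (1 / r)` of `1 - 1 / p` if `p` divides `N`, and
of `1 - 2 / p` if not. -/
noncomputable def V (r N : ℕ) : ℝ :=
  ∏ p ∈ (Finset.range (⌊(N : ℝ) ^ (1 / (r : ℝ))⌋₊ + 1)).filter Nat.Prime,
    (1 - (if p ∣ N then 1 else 2) / (p : ℝ))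

open Classical in
/-- The number of the good `m` in `(u, v]`. -/
noncomputable def count (r N u v : ℕ) : ℕ :=
  ((Finset.Ioc u v).filter (fun m => GoodPair r N m)).card

/-- All windows around `n` inside `(Z, Z + Y]` of length at least `K / V` have the density `V` up to
`ε`. -/
def AllWindows (r N : ℕ) (K ε : ℝ) (Z Y n : ℕ) : Prop :=
  ∀ u v : ℕ, Z ≤ u → u < n → n ≤ v → v ≤ Z + Y → K ≤ ((v : ℝ) - u) * V r N →
    |(count r N u v : ℝ) - (v - u) * V r N| ≤ ε * ((v - u) * V r N)

open Pool.Agent.TH464.PO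

open Classical in
/-- **The density in all windows around almost all of the good `m`**, uniformly in `N`. -/
theorem result (θ : ℝ) (hθ : 0 < θ) (ε : ℝ) (hε : 0 < ε) :
    ∃ (K : ℝ) (r0 : ℕ), 0 < K ∧ ∀ r : ℕ, r0 ≤ r → ∀ᶠ N : ℕ in atTop, 2 ∣ N → ∀ Z Y : ℕ,
      (N : ℝ) ^ θ ≤ Z → (N : ℝ) ^ θ ≤ Y → Z + Y ≤ N →
        (((Finset.Ioc Z (Z + Y)).filter
          (fun n => GoodPair r N n ∧ ¬ AllWindows r N K ε Z Y n)).card : ℝ) ≤
            ε * (Y * V r N) := by
  obtain ⟨K, r0, hK, h⟩ := gold_ex θ hθ ε hε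
  refine ⟨K, r0, hK, fun r hr => ?_⟩
  filter_upwards [h r hr] with N hN h2 Z Y hZ hY hZY
  exact (hN h2 (GoodPair r N) (V r N) (fun m _ => Iff.rfl) (gold_V N _) Z Y hZ hY hZY).2

end Pool.Agent.Results.MP_e94e4b_nt.ExactNeighbours
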